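import Pool.Agent.Helper35.HC.StC

/-! # Project HC, module JPK: the pointwise package, any codimension -/

set_option autoImplicit false

namespace Helper8.HC

open Helper35.HC Helper35.HSF Helper35.MS Helper35.PI Helper35.PI2 Helper32.CL
open scoped ContDiff Manifold Topology ENNReal BigOperators
open MeasureTheory Set Filter

private theorem da {n : ℕ} {M : Type} [TopologicalSpace M] [ChartedSpace (EE n) M]
    [IsManifold (𝓡 n) ∞ M] {E : Type} [NormedAddCommGroup E] [NormedSpace ℝ E]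
    {f : M → E} (hf : ContMDiff (𝓡 n) 𝓘(ℝ, E) 1 f) (q : M) :
    DifferentiableAt ℝ (fun y => f ((chartAt (EE n) q).symm y)) (chartAt (EE n) q q) := by
  have h1 : ContMDiffOn (𝓡 n) (𝓡 n) ∞ (chartAt (EE n) q).symm (chartAt (EE n) q).target :=
    contMDiffOn_chart_symm
  have h2 : ContMDiffAt (𝓡 n) (𝓡 n) ∞ (chartAt (EE n) q).symm (chartAt (EE n) q q) :=
    h1.contMDiffAt ((chartAt (EE n) q).open_target.mem_nhds
      ((chartAt (EE n) q).map_source (mem_chart_source (EE n) q)))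
  have h3 : ContMDiffAt (𝓡 n) 𝓘(ℝ, E) 1 (f ∘ (chartAt (EE n) q).symm) (chartAt (EE n) q q) :=
    hf.contMDiffAt.comp _ (h2.of_le (by exact_mod_cast le_top))
  exact (contMDiffAt_iff_contDiffAt.1 h3).differentiableAt one_ne_zero

private theorem dv_lin {n N : ℕ} {M : Type} [TopologicalSpace M] [ChartedSpace (EE n) M]
    [IsManifold (𝓡 n) ∞ M] (F : M → ℝ → EE N) (t : ℝ) (X Y : M → EE N) (a b : ℝ)
    (hX : ContMDiff (𝓡 n) 𝓘(ℝ, EE N) 1 X) (hY : ContMDiff (𝓡 n) 𝓘(ℝ, EE N) 1 Y) (q : M) :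
    dvg (n := n) F (fun q => a • X q + b • Y q) q t = a * dvg (n := n) F X q t +
      b * dvg (n := n) F Y q t := by
  have hd : fderiv ℝ (fun y => a • X ((chartAt (EE n) q).symm y) +
      b • Y ((chartAt (EE n) q).symm y)) (chartAt (EE n) q q) =
      a • fderiv ℝ (fun y => X ((chartAt (EE n) q).symm y)) (chartAt (EE n) q q) +
      b • fderiv ℝ (fun y => Y ((chartAt (EE n) q).symm y)) (chartAt (EE n) q q) := by
    have e1 := ((da hX q).hasFDerivAt.const_smul a).add ((da hY q).hasFDerivAt.const_smul b)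
    exact e1.fderiv
  unfold dvg
  simp only [hd]
  simp only [Finset.mul_sum, ← Finset.sum_add_distrib]
  refine Finset.sum_congr rfl fun k _ => Finset.sum_congr rfl fun m _ => ?_
  simp only [_root_.add_apply, _root_.smul_apply]
  rw [inner_add_left, real_inner_smul_left, real_inner_smul_left]
  ring

private theorem cm_lin {n : ℕ} {M : Type} [TopologicalSpace M] [ChartedSpace (EE n) M]
    {E : Type} [NormedAddCommGroup E] [NormedSpace ℝ E] (a b : ℝ)
    {f g : M → E} (hf : ContMDiff (𝓡 n) 𝓘(ℝ, E) 1 f) (hg : ContMDiff (𝓡 n) 𝓘(ℝ, E) 1 g) :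
    ContMDiff (𝓡 n) 𝓘(ℝ, E) 1 (fun q => a • f q + b • g q) := by
  have hL : ContDiff ℝ 1 (fun p : E × E => a • p.1 + b • p.2) :=
    (contDiff_fst.const_smul a).add (contDiff_snd.const_smul b)
  exact hL.contMDiff.comp (hf.prodMk_space hg)

private theorem inner_L {n N : ℕ} (L : EE n →ₗᵢ[ℝ] EE N) (a b : Fin n → ℝ) :
    (inner ℝ (∑ k, a k • L (ee k)) (∑ k, b k • L (ee k)) : ℝ) = ∑ k, a k * b k := by
  have h0 : Orthonormal ℝ (fun k : Fin n => (ee k : EE n)) :=
    EuclideanSpace.orthonormal_single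
  have h1 : Orthonormal ℝ (fun k : Fin n => L (ee k)) := h0.comp_linearIsometry L
  have h := h1.inner_sum a b Finset.univ
  simpa using h

private theorem norm_L {n N : ℕ} (L : EE n →ₗᵢ[ℝ] EE N) (a : Fin n → ℝ) :
    ‖∑ k, a k • L (ee k)‖ ^ 2 = ∑ k, a k ^ 2 := by
  rw [← real_inner_self_eq_norm_sq, inner_L]
  exact Finset.sum_congr rfl fun k _ => (pow_two _).symm


section

variable {n N : ℕ} {M : Type} [TopologicalSpace M] [ChartedSpace (EE n) M]
    [IsManifold (𝓡 n) ∞ M] {J : Set ℝ} {F : M → ℝ → EE N}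

private theorem lap_lin (hSMR : StSMR) (hHTR : StHTR) (imm : IsImmJ (n := n) J F)
    (u v : M → ℝ → ℝ) (hu : SmJ n J u) (hv : SmJ n J v) (a b : ℝ) (q : M) (t : ℝ) (ht : t ∈ J) :
    lapN n F (fun q t => a * u q t + b * v q t) q t = a * lapN n F u q t + b * lapN n F v q t := by
  obtain ⟨-, -, -, du, -⟩ := hSMR n N M J F imm u hu
  obtain ⟨-, -, -, dv, -⟩ := hSMR n N M J F imm v hv
  have h := (((hHTR n N M J F imm u v hu hv).2.1 a b).2 q t ht).2
  have hd : deriv (fun s => a * u q s + b * v q s) t =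
      a * deriv (fun s => u q s) t + b * deriv (fun s => v q s) t :=
    (((du q t ht).const_mul a).add ((dv q t ht).const_mul b)).deriv
  unfold htN at h
  rw [hd] at h
  linarith

private theorem der_lin (hSMR : StSMR) (imm : IsImmJ (n := n) J F)
    (u v : M → ℝ → ℝ) (hu : SmJ n J u) (hv : SmJ n J v) (a b : ℝ) (q : M) (t : ℝ) (ht : t ∈ J) :
    deriv (fun s => a * u q s + b * v q s) t =
      a * deriv (fun s => u q s) t + b * deriv (fun s => v q s) t := by
  obtain ⟨-, -, -, du, -⟩ := hSMR n N M J F imm u hu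
  obtain ⟨-, -, -, dv, -⟩ := hSMR n N M J F imm v hv
  exact (((du q t ht).const_mul a).add ((dv q t ht).const_mul b)).deriv

omit [IsManifold (𝓡 n) ∞ M] in
/-- the field `Sd` as a combination of three fields -/
private theorem Sd_eq (F : M → ℝ → EE N) (t : ℝ) : Sd n F t = fun q =>
    (1 : ℝ) • ((1 / 4 : ℝ) • gdM n F t (fun q => 4 * AA (n := n) F q t
      + (-1) * ‖HH (n := n) F q t‖ ^ 2) q + (-(1 / 4) : ℝ) • VF n 1 F t q)
      + (-(1 / (2 * n)) : ℝ) • gdM n F t (fun q => ‖HH (n := n) F q t‖ ^ 2) q := by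
  funext q
  unfold Sd
  have h1 : (fun q => 4 * AA (n := n) F q t + (-1) * ‖HH (n := n) F q t‖ ^ 2) =
      fun q => 4 * AA (n := n) F q t - ‖HH (n := n) F q t‖ ^ 2 := by
    funext q
    ring
  rw [h1]
  module

end


/-- Cauchy-Schwarz for families of vectors -/
private theorem cs_vec {N : ℕ} {σ : Type} (s : Finset σ) (a b : σ → EE N) :
    (∑ x ∈ s, (inner ℝ (a x) (b x) : ℝ)) ^ 2 ≤ (∑ x ∈ s, ‖a x‖ ^ 2) * ∑ x ∈ s, ‖b x‖ ^ 2 := by
  have h1 : |∑ x ∈ s, (inner ℝ (a x) (b x) : ℝ)| ≤ ∑ x ∈ s, ‖a x‖ * ‖b x‖ :=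
    (Finset.abs_sum_le_sum_abs _ _).trans
      (Finset.sum_le_sum fun x _ => abs_real_inner_le_norm _ _)
  have h2 : (∑ x ∈ s, (inner ℝ (a x) (b x) : ℝ)) ^ 2 ≤ (∑ x ∈ s, ‖a x‖ * ‖b x‖) ^ 2 := by
    rw [← sq_abs]
    exact pow_le_pow_left₀ (abs_nonneg _) h1 2
  exact h2.trans (Finset.sum_mul_sq_le_sq_mul_sq s _ _)

section Algebra

variable {n N : ℕ}

/-- the Cauchy-Schwarz inequality for the first gradient -/
private theorem alg1 (A : Fin n → Fin n → EE N) (T : Fin n → Fin n → Fin n → EE N)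
    (a : Fin n → Fin n → EE N)
    (ha : a = fun i j => A i j - (if i = j then (1 : ℝ) else 0) • ((1 / (n : ℝ)) • Hv A))
    (S : Fin n → ℝ)
    (hS : ∀ k, S k = (∑ l, (inner ℝ (A k l) (et T l) : ℝ)) - inner ℝ (Hv A) (et T k) / n) :
    ∑ k, S k ^ 2 ≤ XX a * eq2 T := by
  have h1 : ∀ k, S k = ∑ l, (inner ℝ (a k l) (et T l) : ℝ) := by
    intro k
    rw [hS k, ha]
    have h2 : ∀ l, (inner ℝ (A k l - (if k = l then (1 : ℝ) else 0) • ((1 / (n : ℝ)) • Hv A))
        (et T l) : ℝ) = inner ℝ (A k l) (et T l) -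
        (if k = l then inner ℝ (Hv A) (et T l) / n else 0) := by
      intro l
      rw [inner_sub_left, real_inner_smul_left, real_inner_smul_left]
      split_ifs <;> ring
    simp only [h2, Finset.sum_sub_distrib, Finset.sum_ite_eq, Finset.mem_univ, if_true]
  unfold XX
  rw [Finset.sum_mul]
  refine Finset.sum_le_sum fun k _ => ?_
  rw [h1 k]
  exact cs_vec Finset.univ _ _

/-- the Cauchy-Schwarz inequality for the second gradient -/
private theorem alg2 (hn : (n : ℝ) ≠ 0) (A : Fin n → Fin n → EE N)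
    (T : Fin n → Fin n → Fin n → EE N) (a : Fin n → Fin n → EE N)
    (ha : a = fun i j => A i j - (if i = j then (1 : ℝ) else 0) • ((1 / (n : ℝ)) • Hv A))
    (ha0 : Hv a = 0) (g : Fin n → ℝ)
    (hg : ∀ k, g k = 2 * (∑ i, ∑ j, (inner ℝ (A i j) (T i j k) : ℝ)) -
      2 * inner ℝ (Hv A) (et T k) / n) :
    ∑ k, g k ^ 2 ≤ 4 * XX a * (tq T - eq2 T / n) := by
  set T0 : Fin n → Fin n → Fin n → EE N := fun i j k =>
    T i j k - (if i = j then (1 : ℝ) else 0) • ((1 / (n : ℝ)) • et T k) with hT0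
  have h1 : ∀ k, g k = 2 * ∑ i, ∑ j, (inner ℝ (a i j) (T0 i j k) : ℝ) := by
    intro k
    have e1 : ∀ i j, (inner ℝ (a i j) (T0 i j k) : ℝ) = inner ℝ (a i j) (T i j k) -
        (if i = j then inner ℝ (a i j) (et T k) / n else 0) := by
      intro i j
      simp only [hT0]
      rw [inner_sub_right, real_inner_smul_right, real_inner_smul_right]
      split_ifs <;> ring
    have e2 : ∀ i j, (inner ℝ (a i j) (T i j k) : ℝ) = inner ℝ (A i j) (T i j k) -
        (if i = j then inner ℝ (Hv A) (T i j k) / n else 0) := by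
      intro i j
      rw [ha]
      show (inner ℝ (A i j - (if i = j then (1 : ℝ) else 0) • ((1 / (n : ℝ)) • Hv A))
        (T i j k) : ℝ) = _
      rw [inner_sub_left, real_inner_smul_left, real_inner_smul_left]
      split_ifs <;> ring
    have e3 : ∑ i, (inner ℝ (a i i) (et T k) : ℝ) = 0 := by
      rw [← sum_inner]
      have : ∑ i, a i i = Hv a := rfl
      rw [this, ha0, inner_zero_left]
    have e4 : ∑ i, (inner ℝ (Hv A) (T i i k) : ℝ) = inner ℝ (Hv A) (et T k) := by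
      rw [← inner_sum]
      rfl
    rw [hg k]
    simp only [e1, e2, Finset.sum_sub_distrib, Finset.sum_ite_eq, Finset.mem_univ, if_true,
      ← Finset.sum_div, e3, e4]
    ring
  have h2 : ∑ i, ∑ j, ∑ k, ‖T0 i j k‖ ^ 2 = tq T - eq2 T / n := by
    have e1 : ∀ i j k, ‖T0 i j k‖ ^ 2 = ‖T i j k‖ ^ 2 +
        (if i = j then (-2 / (n : ℝ) * inner ℝ (T i j k) (et T k) +
          1 / (n : ℝ) ^ 2 * ‖et T k‖ ^ 2) else 0) := by
      intro i j k
      simp only [hT0]
      rw [norm_sub_sq_real, real_inner_smul_right, real_inner_smul_right, norm_smul, norm_smul,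
        mul_pow, mul_pow, Real.norm_eq_abs, Real.norm_eq_abs, sq_abs, sq_abs]
      split_ifs <;> ring
    have e2 : ∀ i k, ∑ j, (if i = j then (-2 / (n : ℝ) * (inner ℝ (T i j k) (et T k) : ℝ) +
          1 / (n : ℝ) ^ 2 * ‖et T k‖ ^ 2) else 0) = -2 / (n : ℝ) * inner ℝ (T i i k) (et T k) +
          1 / (n : ℝ) ^ 2 * ‖et T k‖ ^ 2 := by
      intro i k
      rw [Finset.sum_ite_eq]
      simp
    have e3 : ∑ i, ∑ j, ∑ k, (if i = j then (-2 / (n : ℝ) * (inner ℝ (T i j k) (et T k) : ℝ) +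
          1 / (n : ℝ) ^ 2 * ‖et T k‖ ^ 2) else 0) = - (eq2 T / n) := by
      have : ∀ i, ∑ j, ∑ k, (if i = j then (-2 / (n : ℝ) * (inner ℝ (T i j k) (et T k) : ℝ) +
          1 / (n : ℝ) ^ 2 * ‖et T k‖ ^ 2) else 0) = ∑ k, (-2 / (n : ℝ) *
          inner ℝ (T i i k) (et T k) + 1 / (n : ℝ) ^ 2 * ‖et T k‖ ^ 2) := by
        intro i
        rw [Finset.sum_comm]
        exact Finset.sum_congr rfl fun k _ => e2 i k
      simp only [this]
      rw [Finset.sum_comm]
      unfold eq2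
      rw [Finset.sum_div, ← Finset.sum_neg_distrib]
      refine Finset.sum_congr rfl fun k _ => ?_
      rw [Finset.sum_add_distrib, ← Finset.mul_sum, ← sum_inner]
      have : ∑ i, T i i k = et T k := rfl
      rw [this, real_inner_self_eq_norm_sq, Finset.sum_const, Finset.card_univ,
        Fintype.card_fin, nsmul_eq_mul]
      field_simp
      ring
    simp only [e1, Finset.sum_add_distrib, e3]
    unfold tq
    ring
  have h3 : ∀ k, g k ^ 2 ≤ 4 * (XX a * ∑ i, ∑ j, ‖T0 i j k‖ ^ 2) := by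
    intro k
    rw [h1 k, mul_pow]
    have h4 := cs_vec (Finset.univ : Finset (Fin n × Fin n)) (fun x => a x.1 x.2)
      (fun x => T0 x.1 x.2 k)
    simp only [Fintype.sum_prod_type] at h4
    have h5 : (2 : ℝ) ^ 2 = 4 := by norm_num
    rw [h5]
    exact mul_le_mul_of_nonneg_left h4 (by norm_num)
  calc ∑ k, g k ^ 2 ≤ ∑ k, 4 * (XX a * ∑ i, ∑ j, ‖T0 i j k‖ ^ 2) :=
        Finset.sum_le_sum fun k _ => h3 k
    _ = 4 * XX a * ∑ k, ∑ i, ∑ j, ‖T0 i j k‖ ^ 2 := by
        rw [← Finset.mul_sum, ← Finset.mul_sum]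
        ring
    _ = 4 * XX a * (tq T - eq2 T / n) := by
        rw [← h2]
        congr 1
        rw [Finset.sum_comm]
        exact Finset.sum_congr rfl fun i _ => Finset.sum_comm

/-- the Cauchy-Schwarz inequality for the third gradient -/
private theorem alg3 (A : Fin n → Fin n → EE N) (T : Fin n → Fin n → Fin n → EE N) :
    ∑ k, gY A T k ^ 2 ≤ 4 * ‖Hv A‖ ^ 2 * eq2 T := by
  unfold eq2
  rw [Finset.mul_sum]
  refine Finset.sum_le_sum fun k _ => ?_
  unfold gY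
  have h1 := abs_real_inner_le_norm (Hv A) (et T k)
  have h2 : (inner ℝ (Hv A) (et T k) : ℝ) ^ 2 ≤ (‖Hv A‖ * ‖et T k‖) ^ 2 := by
    rw [← sq_abs]
    exact pow_le_pow_left₀ (abs_nonneg _) h1 2
  rw [mul_pow] at h2
  nlinarith

end Algebra

theorem hJPK (hGCX : StGCX) (hHSJ : StHSJ) (hHSM : StHSM) (hG1 : StG1) (hG7 : StG7)
    (hG8 : StG8) (hG9 : StG9) (hG10 : StG10) (hGV : StGV) (hMAJ : StMAJ) (hSMR : StSMR)
    (hSMF : StSMF) (hHTR : StHTR) (hC1 : StC1) (hSQG : StSQG) (hJA : StJA) : StJPK := by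
  intro n N hn1 M _ _ _ J F hf
  have imm : IsImmJ (n := n) J F := hf.toIsImmJ
  have le1 : (1 : WithTop ℕ∞) ≤ (∞ : WithTop ℕ∞) := by exact_mod_cast le_top
  obtain ⟨sF, sH, sA, sY, sθ, -⟩ := hSMF n N M J F imm
  have hlin := fun a b : ℝ => (hHTR n N M J F imm _ _ sA sY).2.1 a b
  have s4 := (hlin 4 (-1)).1
  constructor
  · intro t ht
    obtain ⟨r4, -, -, -, -, -, -, o4⟩ := hSMR n N M J F imm _ s4
    obtain ⟨rY, -, -, -, -, -, -, oY⟩ := hSMR n N M J F imm _ sY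
    have hmaj := hMAJ n N M J F imm 1 t ht
    rw [Sd_eq]
    constructor
    · exact cm_lin 1 _ (cm_lin _ _ ((r4 t ht).2.of_le le1) hmaj.1) ((rY t ht).2.of_le le1)
    · intro q
      simp only [inner_add_right, real_inner_smul_right]
      rw [(o4 t ht q).2, hmaj.2.1 q, (oY t ht q).2]
      ring
  intro q t ht
  obtain ⟨sE, -, -⟩ := hHSM n N M J F imm
  have hLI : LI (loc (n := n) F q t) (chartAt (EE n) q q) := imm.imm q t ht
  obtain ⟨L, hL⟩ := hC1 n N _ hLI
  obtain ⟨u, θ, hc, tr, hE, hvf, hdv⟩ := hGCX n N M J F hf q t ht L hL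
  obtain ⟨g1, g2, g3, g4⟩ := hG1 n N (F q t) L u t hc.sol
  obtain ⟨x1, x2, x3, x4⟩ := hG7 n N (F q t) L u t hc.sol _ _ rfl rfl
  obtain ⟨y1, y2, y3, y4⟩ := hG8 n N (F q t) L u t hc.sol _ _ rfl rfl
  obtain ⟨z1, z2, z3, z4⟩ := hG9 n N (F q t) L u t hc.sol _ _ rfl rfl
  obtain ⟨w1, -⟩ := hG10 n N (F q t) L u t hc.sol
  obtain ⟨v1, v2⟩ := hGV n N (F q t) L u t hc.sol _ _ rfl rfl 1
  obtain ⟨e1, e2, e3⟩ := hHSJ n N hn1 (F q t) L u t hc.sol _ _ rfl rfl
  set A := jgg u (0, t) with hA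
  set T := jggg u (0, t) with hT
  have hn0 : (n : ℝ) ≠ 0 := by
    have : (1 : ℝ) ≤ n := by exact_mod_cast hn1
    linarith
  -- values at the centre
  obtain ⟨k1, k2, k3⟩ := hc.hH.self_of_nhds
  have kE := hE.self_of_nhds
  rw [hc.pt] at k1 k2 k3 kE
  have vH : HH (n := n) F q t = Hv A := k1.trans w1
  have vA : AA (n := n) F q t = XX A := k2.trans x2
  have vZ : ZF (n := n) F q t = ZZ A := k3.trans z2
  have vE : eH n F q t = eq2 T := kE.trans e2
  have vY : ‖HH (n := n) F q t‖ ^ 2 = YY A := by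
    rw [vH]
    rfl
  have vθ : thN n F q t = thA2 A := by
    unfold thN thA2
    rw [vA, vY]
  -- the functions in the chart
  have eX : (fun z : EE n × ℝ => AA (n := n) F (θ z) z.2) =ᶠ[𝓝 (0, t)] Xf (F q t) L u := by
    filter_upwards [hc.hH] with z hz
    exact hz.2.1
  have eY : (fun z : EE n × ℝ => ‖HH (n := n) F (θ z) z.2‖ ^ 2) =ᶠ[𝓝 (0, t)]
      Yf (F q t) L u := by
    filter_upwards [hc.hH] with z hz
    show ‖HH (n := n) F (θ z) z.2‖ ^ 2 = ‖mcv (grf (F q t) L u z.2) z.1‖ ^ 2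
    rw [hz.1]
  have JAr := hJA n ℝ ((0 : EE n), t)
  have jX := JAr.1 _ _ eX
  have jY := JAr.1 _ _ eY
  have jE := JAr.1 _ _ (show (fun z : EE n × ℝ => eH n F (θ z) z.2) =ᶠ[𝓝 (0, t)]
    (fun z : EE n × ℝ => hsq (grf (F q t) L u z.2) z.1) from hE)
  obtain ⟨-, -, a3, a4⟩ := tr (AA (n := n) F) sA
  obtain ⟨-, -, b3, b4⟩ := tr (fun q t => ‖HH (n := n) F q t‖ ^ 2) sY
  obtain ⟨-, -, c3, -⟩ := tr (eH n F) sE
  have gA : gdM n F t (fun q => AA (n := n) F q t) q = ∑ k, gX A T k • L (ee k) := by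
    rw [a4]
    exact Finset.sum_congr rfl fun k _ => by rw [jX.1 k, x3 k]
  have hAA : htN n F (AA (n := n) F) q t = hX A T := by
    rw [← a3, jX.2.2.2, x4]
  have gYY : gdM n F t (fun q => ‖HH (n := n) F q t‖ ^ 2) q = ∑ k, gY A T k • L (ee k) := by
    rw [b4]
    exact Finset.sum_congr rfl fun k _ => by rw [jY.1 k, y3 k]
  have hYY : htN n F (fun q t => ‖HH (n := n) F q t‖ ^ 2) q t = hY A T := by
    rw [← b3, jY.2.2.2, y4]
  have hEE : htN n F (eH n F) q t ≤ 16 * n * (XX A * tq T) := by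
    rw [← c3, jE.2.2.2]
    exact e3
  have vf : VF n 1 F t q = ∑ k, vk 1 A T k • L (ee k) := by
    rw [← hvf]
    exact v1
  have dv : deriv (fun s => 2 * AA (n := n) F q s + (-1) * ‖HH (n := n) F q s‖ ^ 2) t =
      dvg (n := n) F (VF n 1 F t) q t + 4 * hX A T - hY A T + 4 * eq2 T - 4 * AAH A := by
    have s2 : SmJ n J (fun q t => 2 * AA (n := n) F q t + (-1) * ‖HH (n := n) F q t‖ ^ 2) :=
      ((hHTR n N M J F imm _ _ sA sY).2.1 2 (-1)).1
    obtain ⟨-, c2, -, -⟩ := tr _ s2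
    have eZ : (fun z : EE n × ℝ => 2 * AA (n := n) F (θ z) z.2
        + (-1) * ‖HH (n := n) F (θ z) z.2‖ ^ 2) =ᶠ[𝓝 (0, t)]
        fun z => 2 * Xf (F q t) L u z - Yf (F q t) L u z := by
      filter_upwards [eX, eY] with z hz1 hz2
      rw [hz1, hz2]
      ring
    have jZ := (JAr.1 _ _ eZ).2.1
    rw [← c2, jZ, v2, hdv]
    ring
  have hXd : hX A T = -2 * tq T + 2 * Sq A := rfl
  have hYd : hY A T = -2 * eq2 T + 2 * ZZ A := rfl
  -- gradients
  have hth : thN n F = fun q t => 1 * AA (n := n) F q t +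
      (-(1 / (n : ℝ))) * ‖HH (n := n) F q t‖ ^ 2 := by
    funext q t
    unfold thN
    ring
  set gθ : Fin n → ℝ := fun k => gX A T k - gY A T k / n with hgθ
  set S : Fin n → ℝ := fun k => (∑ l, (inner ℝ (A k l) (et T l) : ℝ)) -
    inner ℝ (Hv A) (et T k) / n with hS
  have d1 : gdM n F t (fun q => thN n F q t) q = ∑ k, gθ k • L (ee k) := by
    have h := ((hlin 1 (-(1 / (n : ℝ)))).2 q t ht).1
    rw [hth]
    refine h.trans ?_
    rw [gA, gYY, Finset.smul_sum, Finset.smul_sum, ← Finset.sum_add_distrib]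
    refine Finset.sum_congr rfl fun k _ => ?_
    rw [smul_smul, smul_smul, ← add_smul]
    congr 1
    simp only [hgθ]
    ring
  have d3 : Sd n F t q = ∑ k, S k • L (ee k) := by
    rw [Sd_eq]
    show (1 : ℝ) • ((1 / 4 : ℝ) • gdM n F t (fun q => 4 * AA (n := n) F q t
      + (-1) * ‖HH (n := n) F q t‖ ^ 2) q + (-(1 / 4) : ℝ) • VF n 1 F t q)
      + (-(1 / (2 * n)) : ℝ) • gdM n F t (fun q => ‖HH (n := n) F q t‖ ^ 2) q = _
    rw [((hlin 4 (-1)).2 q t ht).1, gA, gYY, vf]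
    simp only [Finset.smul_sum, smul_smul, ← Finset.sum_add_distrib, ← add_smul]
    refine Finset.sum_congr rfl fun k _ => ?_
    congr 1
    unfold vk
    simp only [hS]
    unfold gY
    field_simp
    ring
  -- the traceless part
  set m : EE N := (1 / (n : ℝ)) • Hv A with hm
  set a : Fin n → Fin n → EE N := fun i j => A i j - (if i = j then (1 : ℝ) else 0) • m with ha
  obtain ⟨q1, -, -, q4, -⟩ := hSQG n N hn1 A g1 m a rfl rfl _ rfl
  refine ⟨L, u, θ, A, T, hc, rfl, rfl, g1, g2, vA, vH, vZ, vθ, vE, ?_, ?_, hEE, ?_, ?_, ?_, ?_⟩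
  · have h := ((hlin 1 (-(1 / (n : ℝ)))).2 q t ht).2
    rw [← hth] at h
    rw [h, hAA, hYY, hXd, hYd]
    field_simp
    ring
  · rw [hYY, hYd]
  · have l4 := lap_lin hSMR hHTR imm _ _ sA sY 4 (-1) q t ht
    have lθ := lap_lin hSMR hHTR imm _ _ sA sY 1 (-(1 / (n : ℝ))) q t ht
    rw [← hth] at lθ
    have dl := der_lin hSMR imm _ _ sA sY 2 (-1) q t ht
    have f1 := dv
    rw [dl] at f1
    have f2 : deriv (fun s => AA (n := n) F q s) t - lapN n F (AA (n := n) F) q t = hX A T := hAA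
    have f3 : deriv (fun s => ‖HH (n := n) F q s‖ ^ 2) t -
        lapN n F (fun q t => ‖HH (n := n) F q t‖ ^ 2) q t = hY A T := hYY
    obtain ⟨r4, -⟩ := hSMR n N M J F imm _ s4
    obtain ⟨rY, -⟩ := hSMR n N M J F imm _ sY
    have hmaj := hMAJ n N M J F imm 1 t ht
    have g1 : dvg (n := n) F (Sd n F t) q t =
        1 * (1 / 4 * lapN n F (fun q t => 4 * AA (n := n) F q t
          + (-1) * ‖HH (n := n) F q t‖ ^ 2) q t + (-(1 / 4)) * dvg (n := n) F (VF n 1 F t) q t)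
          + (-(1 / (2 * n))) * lapN n F (fun q t => ‖HH (n := n) F q t‖ ^ 2) q t := by
      rw [Sd_eq, dv_lin F t _ _ _ _ (cm_lin _ _ ((r4 t ht).2.of_le le1) hmaj.1)
        ((rY t ht).2.of_le le1) q, dv_lin F t _ _ _ _ ((r4 t ht).2.of_le le1) hmaj.1 q]
      rfl
    have f4 : deriv (fun s => AA (n := n) F q s) t =
        hX A T + lapN n F (AA (n := n) F) q t := by linarith
    have f5 : deriv (fun s => ‖HH (n := n) F q s‖ ^ 2) t =
        hY A T + lapN n F (fun q t => ‖HH (n := n) F q t‖ ^ 2) q t := by linarith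
    have f6 : dvg (n := n) F (VF n 1 F t) q t =
        2 * lapN n F (AA (n := n) F) q t - lapN n F (fun q t => ‖HH (n := n) F q t‖ ^ 2) q t
          - 2 * hX A T - 4 * eq2 T + 4 * AAH A := by
      rw [f4, f5] at f1
      linarith
    rw [g1, l4, f6, lθ, hXd]
    ring
  · rw [d3, norm_L, vθ, ← q4]
    exact alg1 A T a rfl S fun k => rfl
  · rw [d1, norm_L, vθ, ← q4]
    refine alg2 hn0 A T a rfl q1 gθ fun k => ?_
    simp only [hgθ]
    unfold gX gY
    ring
  · rw [gYY, norm_L, vH]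
    exact alg3 A T

end Helper8.HC
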