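import Pool.Agent.Helper35.HC.StA

/-!
# Project HC, module PI1: the form of `P2`
-/

set_option autoImplicit false

namespace Helper8.HC

open Helper35.HC Helper35.HSF Helper35.MS Helper35.PI Helper35.PI2 Helper32.CL

lemma mt_lc {n : ℕ} (a a' : ℝ) (K b : Fin n → Fin n → ℝ) :
    mt (lc a a' K b) = a * mt K + a' * mt b := by
  unfold Helper35.HC.mt lc
  rw [Finset.sum_add_distrib, ← Finset.mul_sum, ← Finset.mul_sum]
  ring

lemma tl_lc {n : ℕ} (a a' : ℝ) (K b : Fin n → Fin n → ℝ) (i j : Fin n) :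
    tl (lc a a' K b) i j = a * tl K i j + a' * tl b i j := by
  unfold tl
  rw [mt_lc]
  unfold lc
  split_ifs <;> ring

lemma ip0_lc {n : ℕ} (a a' : ℝ) (K b : Fin n → Fin n → ℝ) :
    ip0 (lc a a' K b) (lc a a' K b) =
      a ^ 2 * ip0 K K + 2 * (a * a') * ip0 K b + a' ^ 2 * ip0 b b := by
  unfold ip0
  simp only [tl_lc, Finset.mul_sum, ← Finset.sum_add_distrib]
  refine Finset.sum_congr rfl fun i _ => Finset.sum_congr rfl fun j _ => ?_
  ring

lemma ip0_nonneg {n : ℕ} (K : Fin n → Fin n → ℝ) : 0 ≤ ip0 K K :=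
  Finset.sum_nonneg fun _ _ => Finset.sum_nonneg fun _ _ => mul_self_nonneg _

/-- the eigenvalues of the Gram matrix -/
lemma gram_eig (hGRM : StGRM) (α g β : ℝ) (hα : 0 ≤ α) (hβ : 0 ≤ β) (hg : g ^ 2 ≤ α * β) :
    ∃ p q a a' : ℝ, 0 ≤ q ∧ 0 ≤ p ∧ p + q = α + β ∧ p * q = α * β - g ^ 2 ∧
      (∀ m₁ m₂ : ℝ, α * m₁ ^ 2 + 2 * g * m₁ * m₂ + β * m₂ ^ 2 ≤ p * (m₁ ^ 2 + m₂ ^ 2)) ∧
      a ^ 2 + a' ^ 2 = 1 ∧ p = α * a ^ 2 + 2 * g * a * a' + β * a' ^ 2 := by
  rcases lt_or_eq_of_le hα with h | h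
  · obtain ⟨p, q, hq0, -, hp, hs, hm, hle, a, a', ha, hpa⟩ := hGRM α g β h hg
    exact ⟨p, q, a, a', hq0, by linarith, hs, hm, hle, ha, hpa⟩
  · rcases lt_or_eq_of_le hβ with h' | h'
    · obtain ⟨p, q, hq0, -, hp, hs, hm, hle, a, a', ha, hpa⟩ := hGRM β g α h' (by linarith)
      refine ⟨p, q, a', a, hq0, by linarith, by linarith, by linarith, ?_, by linarith, ?_⟩
      · intro m₁ m₂
        have := hle m₂ m₁
        nlinarith
      · rw [hpa]
        ring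
    · subst h
      subst h'
      have hg0 : g = 0 := by
        have : g ^ 2 ≤ 0 := by simpa using hg
        exact pow_eq_zero_iff (two_ne_zero) |>.1 (le_antisymm this (sq_nonneg g))
      subst hg0
      exact ⟨0, 0, 1, 0, le_refl _, le_refl _, by ring, by ring, fun m₁ m₂ => by simp, by ring, by ring⟩

theorem hPI1 (hSPL : StSPL) (hSQB : StSQB) (hGRM : StGRM) : StPI1 := by
  intro n N hn A K b r μ ξ η x₀ hK hb hKB hμ hOP
  obtain ⟨-, hYY, hth, hZZ, hSq, -, hg⟩ := hSQB n N (by omega) A K b r ξ η x₀ hK hb hKB _ rfl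
  have hr := hKB.r0
  set m₁ := mt K with hm₁
  set m₂ := mt b with hm₂
  set α := ip0 K K with hα
  set g := ip0 K b with hgd
  set β := ip0 b b with hβ
  have hα0 : 0 ≤ α := ip0_nonneg K
  have hβ0 : 0 ≤ β := ip0_nonneg b
  obtain ⟨p, q, a, a', hq0, hp0, hs, hm, hle, ha, hpa⟩ := gram_eig hGRM α g β hα0 hβ0 hg
  set κ := m₁ ^ 2 + m₂ ^ 2 + r with hκ
  have hκ0 : 0 < κ := by positivity
  set v := m₁ ^ 2 * α + 2 * m₁ * m₂ * g + m₂ ^ 2 * β with hv
  have hn0 : (0 : ℝ) < n := by exact_mod_cast (by omega : 0 < n)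
  have hYY0 : YY A ≠ 0 := by
    rw [hYY]
    positivity
  have hZY : ZZ A / YY A = v / κ + n * κ := by
    rw [hZZ, hYY]
    field_simp
  have hXX : XX A = thA2 A + n * κ := by
    unfold thA2
    rw [hYY]
    field_simp
    ring
  have hal : al2 A = thA2 A - v / κ := by
    unfold al2
    rw [hZY, hXX]
    ring
  have hvp : v / κ ≤ p := by
    rw [div_le_iff₀ hκ0]
    have h1 := hle m₁ m₂
    have h2 : p * (m₁ ^ 2 + m₂ ^ 2) ≤ p * κ := mul_le_mul_of_nonneg_left (by linarith) hp0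
    have h3 : v = α * m₁ ^ 2 + 2 * g * m₁ * m₂ + β * m₂ ^ 2 := by rw [hv]; ring
    linarith
  have halq : q ≤ al2 A := by
    rw [hal, hth]
    linarith
  have hcq : cq K b ≤ 4 * μ ^ 2 * q := by
    have h1 := (hSPL n hn K b μ hK hb hμ hOP a a' ha).2.2
    rw [ip0_lc] at h1
    have h2 : (-a') ^ 2 * ip0 K K + 2 * (-a' * a) * ip0 K b + a ^ 2 * ip0 b b = q := by
      have h3 : q = α + β - p := by linarith
      rw [h3, hpa]
      have h4 : α + β = (α + β) * (a ^ 2 + a' ^ 2) := by rw [ha, mul_one]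
      rw [h4]
      ring
    rw [h2] at h1
    exact h1
  refine ⟨by linarith, ?_, ?_⟩
  · have h1 := (hSPL n hn K b μ hK hb hμ hOP 1 0 (by ring)).2.1
    have h2 := (hSPL n hn K b μ hK hb hμ hOP 0 1 (by ring)).2.1
    rw [ip0_lc] at h1 h2
    rw [hth]
    have h3 : α ≤ n * μ ^ 2 := by
      have : (1 : ℝ) ^ 2 * ip0 K K + 2 * (1 * 0) * ip0 K b + 0 ^ 2 * ip0 b b = α := by ring
      linarith
    have h4 : β ≤ n * μ ^ 2 := by
      have : (0 : ℝ) ^ 2 * ip0 K K + 2 * (0 * 1) * ip0 K b + 1 ^ 2 * ip0 b b = β := by ring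
      linarith
    linarith
  · have hYn : YY A / n = n * κ := by
      rw [hYY]
      field_simp
    rw [hSq, hZY, hYn]
    have hal2 : v / κ = thA2 A - al2 A := by linarith
    have hvv : v = κ * (thA2 A - al2 A) := by
      rw [← hal2]
      field_simp
    have hpq : 0 ≤ p * q := mul_nonneg hp0 hq0
    have h5 : α ^ 2 + β ^ 2 + 2 * g ^ 2 = thA2 A ^ 2 - 2 * (p * q) := by
      rw [hth, hm]
      ring
    have h6 : 4 * μ ^ 2 * q ≤ 4 * μ ^ 2 * al2 A := mul_le_mul_of_nonneg_left halq (by positivity)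
    rw [hal2]
    have h5' : α ^ 2 + β ^ 2 + 2 * g ^ 2 + 2 * cq K b + n * v =
        thA2 A ^ 2 - 2 * (p * q) + 2 * cq K b + n * (κ * (thA2 A - al2 A)) := by
      rw [h5, ← hvv]
    rw [h5']
    have h7 : thA2 A ^ 2 - 2 * (p * q) + 2 * cq K b + n * (κ * (thA2 A - al2 A)) -
        thA2 A * (thA2 A - al2 A + n * κ) =
        (8 * μ ^ 2 + thA2 A - n * κ) * al2 A - (2 * (p * q) + 2 * (4 * μ ^ 2 * al2 A - cq K b)) := by
      ring
    rw [h7]
    linarith

end Helper8.HC
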